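import Pool.Agent.Run7.h128.NW.Wq
import Pool.Agent.Run7.h128.NW.Box

/-!
# The group of the bases of `K` for which almost all primes of `K` are Wieferich primes
-/

set_option autoImplicit false

namespace Pool.Agent.Results.MP_f5a5f7_nt.WieferichGroup

open NumberField IsDedekindDomain
open Run7.h283.NW (NonWieferich ExactPrimitive)
open Run7.h128.NW (W Rich RichBox)

open scoped Classical in
/-- **Theorem.** -/
theorem result (K : Type) [Field K] [NumberField K] :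
    (∀ α : Kˣ, α ∈ W K ↔ {v : HeightOneSpectrum (𝓞 K) | NonWieferich K (α : K) v}.Finite) ∧
    (∀ (α : Kˣ) (k : ℕ), 0 < k → α ^ k ∈ W K → α ∈ W K) ∧
    (∀ α : Kˣ, α ∈ W K → Units.map (Algebra.norm ℚ : K →* ℚ) α ∈ W ℚ) ∧
    (∀ r : ℚˣ, Units.map (algebraMap ℚ K : ℚ →* K) r ∈ W K ↔ r ∈ W ℚ) ∧
    (∀ b : ℕ, b = 2 ∨ b = 3 ∨ b = 432 → ∀ (α : Kˣ) (a : ℤ), a ≠ 0 →
      |Algebra.norm ℚ (α : K)| = (b : ℚ) ^ a → α ∉ W K) ∧
    (∀ α : Kˣ, α ∉ W K →
      {n : ℕ | ∃ v : HeightOneSpectrum (𝓞 K), ExactPrimitive K (α : K) n v}.Infinite) ∧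
    (∀ (g : 𝓞 K) (hg : (g : K) ≠ 0), ¬ IsUnit g → Units.mk0 (g : K) hg ∉ W K →
      ∀ G : Finset (𝓞 K), (0 : 𝓞 K) ∉ G → (∀ β : 𝓞 K, g * β ∈ G → β ∈ G) →
        (G.filter fun β : 𝓞 K => g ∣ β).card ≤ (G.filter fun β : 𝓞 K => Rich K (β : K)).card) ∧
    (∀ (ι : Type) [Fintype ι] (b : Module.Basis ι ℤ (𝓞 K)) (T : ℕ),
      (2 * (T / 2) + 1) ^ Fintype.card ι - 1 ≤ (RichBox b T).ncard) := by
  refine ⟨fun α => Run7.h128.NW.mem_W, fun α k hk h => Run7.h128.NW.W_root hk h,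
    fun α h => Run7.h128.NW.norm_mem h, fun r => Run7.h128.NW.rat_mem_iff r, ?_, ?_, ?_, ?_⟩
  · rintro b (rfl | rfl | rfl) α a ha h
    · exact Run7.h128.NW.not_mem_W_of_norm (by norm_num) Run7.h128.NW.inf_two ha h
    · exact Run7.h128.NW.not_mem_W_of_norm (by norm_num) Run7.h128.NW.inf_three ha h
    · exact Run7.h128.NW.not_mem_W_of_norm (by norm_num) Run7.h128.NW.inf_432 ha h
  · intro α h
    exact Run7.h128.NW.infinite_exact (Run7.h128.NW.rich_iff_not_mem.2 h)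
  · intro g hg hu hW G h0 hG
    exact Run7.h128.NW.count_field hu hg hW G h0 hG
  · intro ι _ b T
    exact Run7.h128.NW.box_count b T

end Pool.Agent.Results.MP_f5a5f7_nt.WieferichGroup
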